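import Pool.Graph.R_pool_sql_team_seeded_64922ed1.X108.HB.Z3
import Pool.Graph.R_pool_sql_team_seeded_64922ed1.X108.HB.PR

set_option autoImplicit false

/-!
# Montgomery's large values conjecture on sets of small doubling, `T ≤ N^{3/2}`

Let `T ≤ N²` and `|a_n| ≤ 1`.

(i) For all finite sets `W, X ⊂ [0,T]`, `X` nonempty, such that `W + X` is `1`-separated,
`∑_{t ∈ W} |D(t)|² ≤ C N^ε (|W + X| / |X|)^{1/2} (N + |W + X| + T^{1/2} |W + X|^{1/4}) N`.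

(ii) If `|W + W| ≤ K |W|` (and `W + W` is `1`-separated), then the inequality of Q1 holds on `W`
with `C K^{3/2} N^ε` in place of `C N^ε`, in each of the three cases `T ≤ N^{3/2}`,
`|W + W| ≤ N⁴/T²` and `|W| ≥ T^{2/3}`.  For `T ≤ N^{3/2}` there is no condition on the size of `W`.

(iii) Hence Q1 holds, for all `T ≤ N^{3/2}`, for every arithmetic progression `t₀, t₀ + δ, …` with
real `δ ≥ 1` in `[0,T]`, of any length; for `T ≤ N²` it holds for those with `K ≥ T^{2/3}` or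
`2K ≤ N⁴/T²` terms.

The proof combines Heath-Brown's inequality for the double sum of the zeta sums over the differences
of a set with the positivity of the double sum.
-/

namespace Pool.Agent.H73.MX.Prog

open Finset
open scoped Pointwise

/-- `D(t) = ∑_{n ≤ N} a_n n^{it}` -/
noncomputable def D (N : ℕ) (a : ℕ → ℂ) (t : ℝ) : ℂ :=
  ∑ n ∈ Finset.Icc 1 N, a n * Complex.exp (Complex.I * (t : ℂ) * (Real.log (n : ℝ) : ℂ))

/-- distinct members have distance at least one -/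
def Separated (S : Finset ℝ) : Prop := ∀ t ∈ S, ∀ u ∈ S, t ≠ u → 1 ≤ |t - u|

theorem D_eq (N : ℕ) (a : ℕ → ℂ) (t : ℝ) :
    D N a t = Pool.Agent.X108.HB.DD (Icc 1 N) a t := by
  unfold D Pool.Agent.X108.HB.DD
  refine sum_congr rfl fun n _ => ?_
  unfold Pool.Agent.X108.HB.ee
  congr 2
  push_cast
  ring

/-- `s^(1/4) N^(1/2) ≤ s + N` for `s, N ≥ 1`, and the like -/
theorem quarter {s M : ℝ} (hs : 0 ≤ s) (hM : 0 ≤ M) :
    s ^ (1 / 4 : ℝ) * M ^ (3 / 4 : ℝ) ≤ s + M := by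
  have := Real.geom_mean_le_arith_mean2_weighted (w₁ := 1 / 4) (w₂ := 3 / 4) (by norm_num)
    (by norm_num) hs hM (by norm_num)
  linarith

/-- the double sum, `T ≤ N²`, sets in `[0, 2T]` -/
theorem double {ε : ℝ} (hε : 0 < ε) : ∃ C : ℝ, 1 ≤ C ∧ ∀ (N : ℕ), 1 ≤ N → ∀ (T : ℝ), 0 ≤ T →
    T ≤ (N : ℝ) ^ 2 → ∀ S : Finset ℝ, Separated S → (∀ t ∈ S, 0 ≤ t ∧ t ≤ 2 * T) →
    Pool.Agent.X108.HB.ZZ (Icc 1 N) S ≤
      C * (N : ℝ) ^ ε * ((S.card : ℝ) * N * ((N : ℝ) + S.card + √T * (S.card : ℝ) ^ (1 / 4 : ℝ))) := by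
  obtain ⟨C, hC1, hC⟩ := Pool.Agent.X108.HB.Z3 (ε := ε / 2) (by positivity)
  have h1 : (1 : ℝ) ≤ 2 ^ ε := Real.one_le_rpow (by norm_num) hε.le
  refine ⟨2 * C * 2 ^ ε, ?_, ?_⟩
  · nlinarith
  intro N hN T hT0 hT S hS hST
  have hNr : (1 : ℝ) ≤ N := by exact_mod_cast hN
  have hN0 : (0 : ℝ) < N := by linarith
  rcases S.eq_empty_or_nonempty with hSe | hSn
  · subst hSe
    simp [Pool.Agent.X108.HB.ZZ]
  have hs : (1 : ℝ) ≤ S.card := by exact_mod_cast hSn.card_pos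
  set s : ℝ := (S.card : ℝ) with hs'
  have hs0 : (0 : ℝ) < s := by linarith
  -- the length of the interval used
  set T' : ℝ := 2 * T + N with hT'
  have hT'1 : 1 ≤ T' := by rw [hT']; linarith
  have hT'N : T' ≤ 4 * (N : ℝ) ^ 2 := by rw [hT']; nlinarith
  have h2 := hC T' hT'1 S 0 ⟨hS, fun t ht => ⟨(hST t ht).1, by
    have := (hST t ht).2
    rw [hT']
    linarith⟩⟩ N hN (by rw [hT']; linarith) (Icc 1 N) (Subset.refl _)
  rw [← hs'] at h2
  have hTe : T' ^ (ε / 2) ≤ 2 ^ ε * (N : ℝ) ^ ε := by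
    calc T' ^ (ε / 2) ≤ (4 * (N : ℝ) ^ 2) ^ (ε / 2) :=
          Real.rpow_le_rpow (by linarith) hT'N (by positivity)
      _ = ((2 * (N : ℝ)) ^ (2 : ℝ)) ^ (ε / 2) := by
          congr 1
          rw [Real.rpow_two]
          ring
      _ = (2 * (N : ℝ)) ^ ε := by
          rw [← Real.rpow_mul (by positivity)]
          congr 1
          ring
      _ = _ := Real.mul_rpow (by norm_num) hN0.le
  have hR : Pool.Agent.X108.HB.R3 s T' N ≤ 2 * (s * N * (N + s + √T * s ^ (1 / 4 : ℝ))) := by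
    unfold Pool.Agent.X108.HB.R3
    have e1 : s ^ (5 / 4 : ℝ) = s * s ^ (1 / 4 : ℝ) := by
      rw [← Real.rpow_one_add' hs0.le (by norm_num)]
      norm_num
    have e2 : T' ^ (1 / 2 : ℝ) ≤ 2 * √T + √N := by
      rw [← Real.sqrt_eq_rpow, Real.sqrt_le_left (by positivity)]
      have k1 := Real.sq_sqrt hT0
      have k2 := Real.sq_sqrt hN0.le
      have k3 := mul_nonneg (Real.sqrt_nonneg T) (Real.sqrt_nonneg (N : ℝ))
      rw [hT']
      nlinarith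
    have e3 : √(N : ℝ) * s ^ (1 / 4 : ℝ) ≤ s + N := by
      have k1 : √(N : ℝ) ≤ (N : ℝ) ^ (3 / 4 : ℝ) := by
        rw [Real.sqrt_eq_rpow]
        exact Real.rpow_le_rpow_of_exponent_le hNr (by norm_num)
      calc _ ≤ (N : ℝ) ^ (3 / 4 : ℝ) * s ^ (1 / 4 : ℝ) := by gcongr
        _ = s ^ (1 / 4 : ℝ) * (N : ℝ) ^ (3 / 4 : ℝ) := mul_comm _ _
        _ ≤ _ := quarter hs0.le hN0.le
    have k0 : 0 ≤ s ^ (1 / 4 : ℝ) := by positivity
    have e4 : s ^ (1 / 4 : ℝ) * T' ^ (1 / 2 : ℝ) ≤ 2 * (√T * s ^ (1 / 4 : ℝ)) + (s + N) := by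
      calc _ ≤ s ^ (1 / 4 : ℝ) * (2 * √T + √N) := by gcongr
        _ = 2 * (√T * s ^ (1 / 4 : ℝ)) + √N * s ^ (1 / 4 : ℝ) := by ring
        _ ≤ _ := by linarith
    calc s ^ 2 * N + s * (N : ℝ) ^ 2 + s ^ (5 / 4 : ℝ) * T' ^ (1 / 2 : ℝ) * N
        = s * N * (s + N + s ^ (1 / 4 : ℝ) * T' ^ (1 / 2 : ℝ)) := by rw [e1]; ring
      _ ≤ s * N * (s + N + (2 * (√T * s ^ (1 / 4 : ℝ)) + (s + N))) := by gcongr
      _ = _ := by ring
  calc _ ≤ _ := h2
    _ ≤ C * (2 ^ ε * (N : ℝ) ^ ε) * (2 * (s * N * (N + s + √T * s ^ (1 / 4 : ℝ)))) := by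
        gcongr
        unfold Pool.Agent.X108.HB.R3
        positivity
    _ = _ := by ring

theorem sep_right {W X : Finset ℝ} (hW : W.Nonempty) (h : Separated (W + X)) : Separated X := by
  obtain ⟨w, hw⟩ := hW
  intro t ht u hu htu
  have := h (w + t) (add_mem_add hw ht) (w + u) (add_mem_add hw hu) (by
    intro h
    exact htu (add_left_cancel h))
  rwa [add_sub_add_left_eq_sub] at this

/-- (i) -/
theorem part1 {ε : ℝ} (hε : 0 < ε) : ∃ C : ℝ, 1 ≤ C ∧ ∀ (N : ℕ) (T : ℝ) (a : ℕ → ℂ), 1 ≤ N →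
    T ≤ (N : ℝ) ^ 2 → (∀ n, ‖a n‖ ≤ 1) → ∀ W X : Finset ℝ, X.Nonempty →
    (∀ t ∈ W, 0 ≤ t ∧ t ≤ T) → (∀ t ∈ X, 0 ≤ t ∧ t ≤ T) → Separated (W + X) →
    ∑ t ∈ W, ‖D N a t‖ ^ 2 ≤ C * (N : ℝ) ^ ε * Real.sqrt (((W + X).card : ℝ) / X.card) *
      ((N : ℝ) + ((W + X).card : ℝ) + √T * ((W + X).card : ℝ) ^ (1 / 4 : ℝ)) * N := by
  obtain ⟨C, hC1, hC⟩ := double hε
  refine ⟨C, hC1, ?_⟩
  intro N T a hN hT ha W X hX hW hX2 hsWX
  have hNr : (1 : ℝ) ≤ N := by exact_mod_cast hN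
  have hN0 : (0 : ℝ) < N := by linarith
  obtain ⟨x0, hx0⟩ := hX
  have hT0 : 0 ≤ T := (hX2 x0 hx0).1.trans (hX2 x0 hx0).2
  rcases W.eq_empty_or_nonempty with hWe | hWn
  · rw [hWe, sum_empty]
    positivity
  have hsX : Separated X := sep_right hWn hsWX
  have hq : (0 : ℝ) < X.card := by exact_mod_cast card_pos.2 ⟨x0, hx0⟩
  have hqp : (X.card : ℝ) ≤ (W + X).card := by
    have := card_le_card_add_left (t := X) hWn
    exact_mod_cast this
  set p : ℝ := ((W + X).card : ℝ) with hp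
  set q : ℝ := (X.card : ℝ) with hq'
  have hp0 : 0 < p := by linarith
  have h1 := Pool.Agent.X108.HB.moment_sumset (I := Icc 1 N) (fun n hn => (mem_Icc.1 hn).1) a
    (fun n _ => ha n) W X
  rw [← hq'] at h1
  have h2 := hC N hN T hT0 hT (W + X) hsWX (by
    intro t ht
    obtain ⟨w, hw, x, hx, rfl⟩ := mem_add.1 ht
    have := hW w hw
    have := hX2 x hx
    constructor <;> linarith)
  have h3 := hC N hN T hT0 hT X hsX (by
    intro t ht
    have := hX2 t ht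
    constructor <;> linarith)
  rw [← hp] at h2
  rw [← hq'] at h3
  set c : ℝ := C * (N : ℝ) ^ ε with hc
  have hc0 : 0 ≤ c := by rw [hc]; positivity
  set F : ℝ := (N : ℝ) + p + √T * p ^ (1 / 4 : ℝ) with hF
  have hF0 : 0 ≤ F := by positivity
  have h4 : Real.sqrt (Pool.Agent.X108.HB.ZZ (Icc 1 N) (W + X)) *
      Real.sqrt (Pool.Agent.X108.HB.ZZ (Icc 1 N) X) ≤ c * N * F * Real.sqrt (p * q) := by
    have h5 : Real.sqrt (Pool.Agent.X108.HB.ZZ (Icc 1 N) (W + X)) ≤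
        Real.sqrt (c * (p * N * F)) := Real.sqrt_le_sqrt h2
    have h6 : Real.sqrt (Pool.Agent.X108.HB.ZZ (Icc 1 N) X) ≤ Real.sqrt (c * (q * N * F)) := by
      apply Real.sqrt_le_sqrt
      refine h3.trans ?_
      rw [hF]
      gcongr
    calc _ ≤ Real.sqrt (c * (p * N * F)) * Real.sqrt (c * (q * N * F)) := by gcongr
      _ = Real.sqrt ((c * N * F) ^ 2 * (p * q)) := by
          rw [← Real.sqrt_mul (by positivity)]
          congr 1
          ring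
      _ = _ := by
          rw [Real.sqrt_mul (by positivity), Real.sqrt_sq (by positivity)]
  have h5 : q * Real.sqrt (p / q) = Real.sqrt (p * q) := by
    have : Real.sqrt (p * q) = Real.sqrt (q ^ 2 * (p / q)) := by
      congr 1
      field_simp
    rw [this, Real.sqrt_mul (by positivity), Real.sqrt_sq hq.le]
  have h6 : q * ∑ t ∈ W, ‖D N a t‖ ^ 2 ≤ q * (c * N * F * Real.sqrt (p / q)) := by
    simp only [D_eq]
    refine h1.trans (h4.trans (le_of_eq ?_))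
    rw [← h5]
    ring
  have h7 := le_of_mul_le_mul_left h6 hq
  refine h7.trans (le_of_eq ?_)
  ring

/-- the third term -/
theorem third {N T p w : ℝ} (hN : 1 ≤ N) (hT : 0 ≤ T) (hp : 0 ≤ p) (hw : 0 ≤ w) (hwp : w ≤ p)
    (h : T ≤ N ^ (3 / 2 : ℝ) ∨ p * T ^ 2 ≤ N ^ 4 ∨ T ^ 2 ≤ w ^ 3) :
    √T * p ^ (1 / 4 : ℝ) ≤ N + p := by
  have hN0 : 0 ≤ N := by linarith
  have e4 : (p ^ (1 / 4 : ℝ)) ^ 4 = p := by
    rw [← Real.rpow_natCast, ← Real.rpow_mul hp]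
    norm_num
  have e5 : √T ^ 2 = T := Real.sq_sqrt hT
  have hu : 0 ≤ p ^ (1 / 4 : ℝ) := by positivity
  rcases h with h | h | h
  · have h1 : √T ≤ N ^ (3 / 4 : ℝ) := by
      rw [Real.sqrt_le_left (by positivity), ← Real.rpow_natCast, ← Real.rpow_mul hN0]
      norm_num
      exact h
    calc √T * p ^ (1 / 4 : ℝ) ≤ N ^ (3 / 4 : ℝ) * p ^ (1 / 4 : ℝ) := by gcongr
      _ = p ^ (1 / 4 : ℝ) * N ^ (3 / 4 : ℝ) := mul_comm _ _
      _ ≤ p + N := quarter hp hN0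
      _ = _ := add_comm _ _
  · have h1 : √T * p ^ (1 / 4 : ℝ) ≤ N := by
      refine le_of_pow_le_pow_left₀ (n := 4) (by norm_num) hN0 ?_
      calc (√T * p ^ (1 / 4 : ℝ)) ^ 4 = (√T ^ 2) ^ 2 * (p ^ (1 / 4 : ℝ)) ^ 4 := by ring
        _ = p * T ^ 2 := by rw [e4, e5]; ring
        _ ≤ _ := h
    linarith
  · have h1 : √T * p ^ (1 / 4 : ℝ) ≤ p := by
      refine le_of_pow_le_pow_left₀ (n := 4) (by norm_num) hp ?_
      calc (√T * p ^ (1 / 4 : ℝ)) ^ 4 = (√T ^ 2) ^ 2 * (p ^ (1 / 4 : ℝ)) ^ 4 := by ring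
        _ = T ^ 2 * p := by rw [e4, e5]
        _ ≤ w ^ 3 * p := by gcongr
        _ ≤ p ^ 3 * p := by gcongr
        _ = p ^ 4 := by ring
    linarith

/-- (ii) -/
theorem part2 {ε : ℝ} (hε : 0 < ε) : ∃ C : ℝ, 1 ≤ C ∧ ∀ (N : ℕ) (T : ℝ) (a : ℕ → ℂ), 1 ≤ N →
    T ≤ (N : ℝ) ^ 2 → (∀ n, ‖a n‖ ≤ 1) → ∀ (W : Finset ℝ) (K : ℝ),
    (∀ t ∈ W, 0 ≤ t ∧ t ≤ T) → Separated (W + W) → ((W + W).card : ℝ) ≤ K * W.card →
    (T ≤ (N : ℝ) ^ (3 / 2 : ℝ) ∨ ((W + W).card : ℝ) * T ^ 2 ≤ (N : ℝ) ^ 4 ∨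
      T ^ 2 ≤ (W.card : ℝ) ^ 3) →
    ∑ t ∈ W, ‖D N a t‖ ^ 2 ≤ C * K ^ (3 / 2 : ℝ) * (N : ℝ) ^ ε * ((N : ℝ) + W.card) * N := by
  obtain ⟨C, hC1, hC⟩ := part1 hε
  refine ⟨2 * C, by linarith, ?_⟩
  intro N T a hN hT ha W K hW hsW hK hcase
  have hNr : (1 : ℝ) ≤ N := by exact_mod_cast hN
  have hN0 : (0 : ℝ) < N := by linarith
  rcases W.eq_empty_or_nonempty with hWe | hWn
  · subst hWe
    simp only [sum_empty, card_empty, Nat.cast_zero, add_zero]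
    by_cases hK0 : 0 ≤ K
    · positivity
    · push Not at hK0
      have : K ^ (3 / 2 : ℝ) = 0 := by
        rw [Real.rpow_def_of_neg hK0]
        have h1 : Real.cos (3 / 2 * Real.pi) = 0 := by
          rw [Real.cos_eq_zero_iff]
          exact ⟨1, by push_cast; ring⟩
        rw [h1, mul_zero]
      rw [this]
      simp
  obtain ⟨x0, hx0⟩ := hWn
  have hT0 : 0 ≤ T := (hW x0 hx0).1.trans (hW x0 hx0).2
  have h1 := hC N T a hN hT ha W W ⟨x0, hx0⟩ hW hW hsW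
  have hw : (0 : ℝ) < W.card := by exact_mod_cast card_pos.2 ⟨x0, hx0⟩
  have hwp : (W.card : ℝ) ≤ (W + W).card := by
    have := card_le_card_add_left (t := W) ⟨x0, hx0⟩
    exact_mod_cast this
  set p : ℝ := ((W + W).card : ℝ) with hp
  set w : ℝ := (W.card : ℝ) with hw'
  have hK1 : 1 ≤ K := by
    have : 1 * w ≤ K * w := by linarith
    exact le_of_mul_le_mul_right this hw
  have h2 : √(p / w) ≤ √K := by
    apply Real.sqrt_le_sqrt
    rw [div_le_iff₀ hw]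
    exact hK
  have h3 : √T * p ^ (1 / 4 : ℝ) ≤ N + p := third hNr hT0 (by linarith) hw.le hwp hcase
  have h4 : (N : ℝ) + p + √T * p ^ (1 / 4 : ℝ) ≤ 2 * (K * (N + w)) := by
    have : (N : ℝ) ≤ K * N := by nlinarith
    nlinarith
  have e : K ^ (3 / 2 : ℝ) = √K * K := by
    rw [Real.sqrt_eq_rpow]
    nth_rw 3 [← Real.rpow_one K]
    rw [← Real.rpow_add (by linarith)]
    norm_num
  calc _ ≤ _ := h1
    _ ≤ C * (N : ℝ) ^ ε * √K * (2 * (K * (N + w))) * N := by gcongr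
    _ = _ := by rw [e]; ring

/-- (iii) -/
theorem part3 {ε : ℝ} (hε : 0 < ε) : ∃ C : ℝ, 1 ≤ C ∧ ∀ (N : ℕ) (T : ℝ) (a : ℕ → ℂ), 1 ≤ N →
    T ≤ (N : ℝ) ^ 2 → (∀ n, ‖a n‖ ≤ 1) → ∀ (t₀ δ : ℝ) (K : ℕ), 1 ≤ δ → 0 ≤ t₀ →
    t₀ + K * δ ≤ T + δ →
    (T ≤ (N : ℝ) ^ (3 / 2 : ℝ) ∨ 2 * K * T ^ 2 ≤ (N : ℝ) ^ 4 ∨ T ^ 2 ≤ (K : ℝ) ^ 3) →
    ∑ k ∈ Finset.range K, ‖D N a (t₀ + k * δ)‖ ^ 2 ≤ C * (N : ℝ) ^ ε * ((N : ℝ) + K) * N := by
  classical
  obtain ⟨C, hC1, hC⟩ := part2 hε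
  have h2 : (1 : ℝ) ≤ 2 ^ (3 / 2 : ℝ) := Real.one_le_rpow (by norm_num) (by norm_num)
  refine ⟨C * 2 ^ (3 / 2 : ℝ), by nlinarith, ?_⟩
  intro N T a hN hT ha t₀ δ K hδ ht₀ hKT hcase
  set g : ℕ → ℝ := fun k => t₀ + k * δ with hg
  have hinj : Function.Injective g := by
    intro k l h
    simp only [hg] at h
    have h1 : (k : ℝ) * δ = l * δ := by linarith
    have h3 := mul_right_cancel₀ (by linarith : δ ≠ 0) h1
    exact_mod_cast h3
  set W : Finset ℝ := (range K).image g with hW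
  have hcard : W.card = K := by rw [hW, card_image_of_injective _ hinj, card_range]
  have hsub : W + W ⊆ (range (2 * K)).image (fun k : ℕ => 2 * t₀ + k * δ) := by
    intro x hx
    obtain ⟨y, hy, z, hz, rfl⟩ := mem_add.1 hx
    obtain ⟨k, hk, rfl⟩ := mem_image.1 hy
    obtain ⟨l, hl, rfl⟩ := mem_image.1 hz
    rw [mem_range] at hk hl
    refine mem_image.2 ⟨k + l, mem_range.2 (by omega), ?_⟩
    simp only [hg]
    push_cast
    ring
  have hsep : Separated (W + W) := by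
    intro x hx y hy hxy
    obtain ⟨k, _, rfl⟩ := mem_image.1 (hsub hx)
    obtain ⟨l, _, rfl⟩ := mem_image.1 (hsub hy)
    have hkl : (k : ℤ) - l ≠ 0 := by
      intro h
      apply hxy
      have : k = l := by omega
      rw [this]
    have h1 := Int.one_le_abs hkl
    have h3 : (1 : ℝ) ≤ |(k : ℝ) - l| := by exact_mod_cast h1
    have e : 2 * t₀ + (k : ℝ) * δ - (2 * t₀ + l * δ) = ((k : ℝ) - l) * δ := by ring
    rw [e, abs_mul, abs_of_pos (by linarith : 0 < δ)]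
    nlinarith
  have hdoub : (W + W).card ≤ 2 * K := (card_le_card hsub).trans (by
    refine card_image_le.trans ?_
    rw [card_range])
  have hdoubr : ((W + W).card : ℝ) ≤ 2 * K := by exact_mod_cast hdoub
  have h3 := hC N T a hN hT ha W 2 (by
    intro t ht
    obtain ⟨k, hk, rfl⟩ := mem_image.1 ht
    rw [mem_range] at hk
    have hk1 : (k : ℝ) + 1 ≤ K := by exact_mod_cast hk
    simp only [hg]
    constructor
    · positivity
    · nlinarith) hsep (by rw [hcard]; exact hdoubr) (by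
    rcases hcase with h | h | h
    · exact Or.inl h
    · refine Or.inr (Or.inl (le_trans ?_ h))
      gcongr
    · refine Or.inr (Or.inr ?_)
      rw [hcard]
      exact h)
  rw [hcard, hW, sum_image (fun x _ y _ h => hinj h)] at h3
  exact h3

end Pool.Agent.H73.MX.Prog
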